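import Mathlib
import Pool.Agent.Y214.HB.Stm

set_option autoImplicit false

/-! BOX: counting the integer vectors of a box with residue conditions. -/

open Filter Topology

namespace Pool.Agent.Y297.HB

open Pool.Agent.Y214.HB

theorem ediv_inj {q u u' : ℤ} (hq : q ≠ 0) (hd : q ∣ u' - u) (h : u / q = u' / q) : u = u' := by
  obtain ⟨k, hk⟩ := hd
  have h1 : u' = u + q * k := by linarith
  rw [h1, Int.add_mul_ediv_left u k hq] at h
  have : k = 0 := by linarith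
  rw [h1, this]
  ring

/-- the exact combinatorial bound -/
theorem count (T : Type) [Fintype T] (A : Finset ℕ) (hA : ∀ p ∈ A, p.Prime)
    (B : ∀ p : ℕ, Set (T → ZMod p)) (H : ℕ) :
    ({c : T → ℤ | (∀ t, |c t| ≤ (H : ℤ)) ∧ ∀ p ∈ A, (fun t => (c t : ZMod p)) ∈ B p} :
      Set (T → ℤ)).ncard ≤ (∏ p ∈ A, (B p).ncard) *
        (2 * H / (∏ p ∈ A, p) + 1) ^ Fintype.card T := by
  classical
  set q : ℕ := ∏ p ∈ A, p with hq
  have hq0 : 0 < q := Finset.prod_pos fun p hp => (hA p hp).pos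
  set S : Set (T → ℤ) := {c : T → ℤ | (∀ t, |c t| ≤ (H : ℤ)) ∧
    ∀ p ∈ A, (fun t => (c t : ZMod p)) ∈ B p} with hS
  have hfin : ∀ p : {p // p ∈ A}, Finite (B (p : ℕ)) := by
    intro p
    have : NeZero (p : ℕ) := ⟨(hA p p.2).ne_zero⟩
    infer_instance
  have hb : ∀ (c : S) (t : T), (((c : T → ℤ) t + H) / (q : ℤ)).toNat < 2 * H / q + 1 := by
    intro c t
    have h1 := abs_le.mp (c.2.1 t)
    have h2 : ((c : T → ℤ) t + H) / (q : ℤ) ≤ ((2 * H / q : ℕ) : ℤ) := by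
      push_cast
      refine Int.ediv_le_ediv (by exact_mod_cast hq0) ?_
      linarith [h1.2]
    exact Nat.lt_succ_of_le (Int.toNat_le.mpr h2)
  set Φ : S → (∀ p : {p // p ∈ A}, B (p : ℕ)) × (T → Fin (2 * H / q + 1)) :=
    fun c => (fun p => ⟨fun t => ((c : T → ℤ) t : ZMod p), c.2.2 p p.2⟩,
      fun t => ⟨(((c : T → ℤ) t + H) / (q : ℤ)).toNat, hb c t⟩) with hΦ
  have hinj : Function.Injective Φ := by
    intro c c' h
    apply Subtype.ext
    funext t
    have h1 := congrArg Prod.fst h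
    have h2 := congrArg Prod.snd h
    have h3 : ∀ p ∈ A, (((c : T → ℤ) t : ℤ) : ZMod p) = (((c' : T → ℤ) t : ℤ) : ZMod p) := by
      intro p hp
      have h4 := congrFun h1 ⟨p, hp⟩
      have h5 := congrArg Subtype.val h4
      exact congrFun h5 t
    have h6 : q ∣ ((c' : T → ℤ) t - (c : T → ℤ) t).natAbs := by
      refine Finset.prod_primes_dvd _ (fun p hp => (hA p hp).prime) fun p hp => ?_
      rw [← Int.natCast_dvd]
      exact (ZMod.intCast_eq_intCast_iff_dvd_sub _ _ _).mp (h3 p hp)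
    rw [← Int.natCast_dvd] at h6
    have h7 := congrArg (fun x : Fin (2 * H / q + 1) => (x : ℕ)) (congrFun h2 t)
    simp only [hΦ] at h7
    have b1 := abs_le.mp (c.2.1 t)
    have b2 := abs_le.mp (c'.2.1 t)
    have hqz : (0 : ℤ) < q := by exact_mod_cast hq0
    have n1 : 0 ≤ ((c : T → ℤ) t + H) / (q : ℤ) := Int.ediv_nonneg (by linarith [b1.1]) hqz.le
    have n2 : 0 ≤ ((c' : T → ℤ) t + H) / (q : ℤ) := Int.ediv_nonneg (by linarith [b2.1]) hqz.le
    have h8 : ((c : T → ℤ) t + H) / (q : ℤ) = ((c' : T → ℤ) t + H) / (q : ℤ) := by omega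
    have h9 := ediv_inj hqz.ne' (u := (c : T → ℤ) t + H) (u' := (c' : T → ℤ) t + H)
      (by rw [show (c' : T → ℤ) t + H - ((c : T → ℤ) t + H) = (c' : T → ℤ) t - (c : T → ℤ) t by ring]
          exact h6) h8
    linarith
  have hc := Nat.card_le_card_of_injective Φ hinj
  rw [Nat.card_prod, Nat.card_pi, Nat.card_coe_set_eq] at hc
  have e1 : ∏ p : {p // p ∈ A}, Nat.card (B (p : ℕ)) = ∏ p ∈ A, (B p).ncard := by
    rw [← Finset.prod_coe_sort A (fun p => (B p).ncard)]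
    refine Finset.prod_congr rfl fun p _ => ?_
    rw [Nat.card_coe_set_eq]
  have e2 : Nat.card (T → Fin (2 * H / q + 1)) = (2 * H / q + 1) ^ Fintype.card T := by
    rw [Nat.card_eq_fintype_card, Fintype.card_fun, Fintype.card_fin]
  rw [e1, e2] at hc
  exact hc

theorem t_BOX : S_BOX := by
  intro T _ A hA B b hb ε hε
  set k := Fintype.card T with hk
  set q : ℕ := ∏ p ∈ A, p with hq
  have hq0 : 0 < q := Finset.prod_pos fun p hp => (hA p hp).pos
  set P : ℝ := ∏ p ∈ A, b p with hP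
  have hP0 : 0 ≤ P := by
    refine Finset.prod_nonneg fun p hp => ?_
    have h1 := hb p hp
    have h2 : (0 : ℝ) < (p : ℝ) ^ k := by
      have : (0 : ℝ) < p := by exact_mod_cast (hA p hp).pos
      positivity
    have h3 : (0 : ℝ) ≤ b p * (p : ℝ) ^ k := le_trans (by positivity) h1
    exact nonneg_of_mul_nonneg_left h3 h2
  -- the limit
  have hlim : Tendsto (fun H : ℕ => P * (1 + ((q : ℝ) - 1) / (2 * (H : ℝ) + 1)) ^ k) atTop
      (𝓝 (P * (1 + 0) ^ k)) := by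
    have h1 : Tendsto (fun H : ℕ => 2 * (H : ℝ) + 1) atTop atTop :=
      tendsto_atTop_add_const_right _ _
        (tendsto_natCast_atTop_atTop.const_mul_atTop (by norm_num))
    have h2 : Tendsto (fun H : ℕ => ((q : ℝ) - 1) / (2 * (H : ℝ) + 1)) atTop (𝓝 0) :=
      tendsto_const_nhds.div_atTop h1
    exact ((tendsto_const_nhds.add h2).pow k).const_mul P
  have hev := hlim.eventually (Iio_mem_nhds (show P * (1 + 0) ^ k < P + ε by simpa using hε))
  obtain ⟨H₀, hH₀⟩ := Filter.eventually_atTop.mp hev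
  refine ⟨H₀, fun H hH => ?_⟩
  have h1 : P * (1 + ((q : ℝ) - 1) / (2 * (H : ℝ) + 1)) ^ k < P + ε := hH₀ H hH
  have hN : (0 : ℝ) < 2 * (H : ℝ) + 1 := by positivity
  have h2 : ((({c : T → ℤ | (∀ t, |c t| ≤ (H : ℤ)) ∧ ∀ p ∈ A, (fun t => (c t : ZMod p)) ∈ B p} :
      Set (T → ℤ)).ncard : ℕ) : ℝ) ≤ (∏ p ∈ A, ((B p).ncard : ℝ)) *
        (((2 * H / q : ℕ) : ℝ) + 1) ^ k := by
    have := count T A hA B H
    exact_mod_cast this
  refine h2.trans ?_
  have h3 : ∏ p ∈ A, ((B p).ncard : ℝ) ≤ P * (q : ℝ) ^ k := by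
    have e : P * (q : ℝ) ^ k = ∏ p ∈ A, (b p * (p : ℝ) ^ k) := by
      rw [Finset.prod_mul_distrib, hP, hq, Finset.prod_pow]
      push_cast
      rfl
    rw [e]
    exact Finset.prod_le_prod (fun p _ => by positivity) hb
  have h4 : (q : ℝ) * (((2 * H / q : ℕ) : ℝ) + 1) ≤ 2 * (H : ℝ) + q := by
    have h5 : q * (2 * H / q) ≤ 2 * H := Nat.mul_div_le _ _
    have h6 : ((q * (2 * H / q) : ℕ) : ℝ) ≤ ((2 * H : ℕ) : ℝ) := by exact_mod_cast h5
    push_cast [Nat.cast_mul] at h6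
    have h7 : (q : ℝ) * (((2 * H / q : ℕ) : ℝ)) ≤ 2 * (H : ℝ) := by
      have : ((q * (2 * H / q) : ℕ) : ℝ) ≤ ((2 * H : ℕ) : ℝ) := by exact_mod_cast h5
      rw [Nat.cast_mul] at this
      rw [Nat.cast_mul 2 H] at this
      exact_mod_cast this
    linarith
  calc (∏ p ∈ A, ((B p).ncard : ℝ)) * (((2 * H / q : ℕ) : ℝ) + 1) ^ k
      ≤ P * (q : ℝ) ^ k * (((2 * H / q : ℕ) : ℝ) + 1) ^ k :=
        mul_le_mul_of_nonneg_right h3 (by positivity)
    _ = P * ((q : ℝ) * (((2 * H / q : ℕ) : ℝ) + 1)) ^ k := by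
        rw [mul_pow]; ring
    _ ≤ P * (2 * (H : ℝ) + q) ^ k :=
        mul_le_mul_of_nonneg_left (pow_le_pow_left₀ (by positivity) h4 k) hP0
    _ = P * (1 + ((q : ℝ) - 1) / (2 * (H : ℝ) + 1)) ^ k * (2 * (H : ℝ) + 1) ^ k := by
        rw [mul_assoc, ← mul_pow]
        congr 2
        field_simp
        ring
    _ ≤ (P + ε) * (2 * (H : ℝ) + 1) ^ k :=
        mul_le_mul_of_nonneg_right h1.le (by positivity)

end Pool.Agent.Y297.HB
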